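import Pool.Agent.Helper61.QT.GoalsH

/-!
# Project QT (MP_0ebdb3_gt), packet QC0 (helper28)
-/

set_option autoImplicit false

open Set NormedSpace

namespace Pool.Agent.Helper28.QT

open Pool.Agent.Helper61 Pool.Agent.Helper61.QG Pool.Agent.Helper61.QT
open Pool.Agent.Helper61.QS (V En tr rk R4 UC IsIso compr Loops CoreConcl IsTrans)

theorem tr_conj {k : ℕ} (U A : En k) (hU : star U * U = 1) : tr (U * A * star U) = tr A := by
  have h1 : tr (U * A * star U) = tr (star U * (U * A)) := by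
    unfold tr
    exact LinearMap.trace_mul_comm ℝ ((U * A : En k) : V k →ₗ[ℝ] V k) ((star U : En k) : V k →ₗ[ℝ] V k)
  rw [h1, ← mul_assoc, hU, one_mul]

/-- **C-QC0** -/
theorem goalQC0 (hCORE : Pool.Agent.Helper61.QS.G_CORE) : G_QC0 := by
  intro a k g f v l h
  have hv : ∀ β, v β = f β := by
    intro β
    have h1 := h.rel 0 β
    simp only [mul_zero, add_zero, Int.cast_zero, zero_mul] at h1
    rw [h.one.1, h.one.2.2.2, mul_one, one_mul] at h1
    exact h1
  have hL : Loops k (-a) g l f :=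
    { uN := fun x => (h.unit x).1
      uS := fun x => (h.unit x).2.2.2
      uΨ := fun x => (h.unit x).2.1
      cN := h.smg.continuous
      cS := h.sml.continuous
      cΨ := h.smf.continuous
      pN := fun x => (h.per x).1
      pS := fun x => (h.per x).2.2.2
      pΨ := fun x => (h.per x).2.1
      N0 := h.one.1
      S0 := h.one.2.2.2
      Ψ0 := h.one.2.1
      dN := h.smg.differentiable (by norm_num) 0
      dS := h.sml.differentiable (by norm_num) 0
      rel := by
        intro α β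
        have h1 := h.rel α β
        rw [hv] at h1
        simp only [Int.cast_zero, zero_mul, add_zero] at h1
        rw [← h1]
        congr 2
        push_cast
        ring }
  obtain ⟨κ, Φ, cκ, cΦ, hu, κ0, κs0, Φ0, comm, relκ, N, ϖ, hϖ, orth, hsum, htr⟩ := hCORE k (-a) g l f hL
  have hrel : ∀ s ∈ Icc (0 : ℝ) 1, ∀ α β, Φ s (β + a * α) * (g α * κ 1 α) = (l α * κ 1 α) * Φ s β := by
    intro s hs α β
    have h1 := relκ s hs α β
    have h2 : β - ((-a : ℤ) : ℝ) * α = β + a * α := by push_cast; ring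
    rwa [h2] at h1
  have one1 : (1 : ℝ) ∈ Icc (0 : ℝ) 1 := ⟨zero_le_one, le_rfl⟩
  have zero1 : (0 : ℝ) ∈ Icc (0 : ℝ) 1 := ⟨le_rfl, zero_le_one⟩
  have sub1 : ∀ s : ℝ, 0 ≤ s → s ≤ 1 → 1 - s ∈ Icc (0 : ℝ) 1 := fun s h0 h1 => ⟨by linarith, by linarith⟩
  have uu : ∀ {u : En k}, u ∈ unitary (En k) → star u * u = 1 ∧ u * star u = 1 := by
    intro u hu
    exact ⟨(Unitary.mem_iff.1 hu).1, (Unitary.mem_iff.1 hu).2⟩
  refine ⟨N, fun j x => κ x.1 x.2.2.1 * star (Φ (1 - x.2.1) x.2.2.2) * ϖ j *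
    star (κ x.1 x.2.2.1 * star (Φ (1 - x.2.1) x.2.2.2)), ?_, ?_, ?_, ?_, ?_, ?_, ?_⟩
  · intro j
    have c1 : ContinuousOn (fun x : R4 => κ x.1 x.2.2.1) Sq := by
      refine cκ.comp (f := fun x : R4 => (x.1, x.2.2.1)) (by fun_prop) ?_
      intro x hx
      exact ⟨⟨hx.1, hx.2.1⟩, mem_univ _⟩
    have c2 : ContinuousOn (fun x : R4 => Φ (1 - x.2.1) x.2.2.2) Sq := by
      refine cΦ.comp (f := fun x : R4 => (1 - x.2.1, x.2.2.2)) (by fun_prop) ?_
      intro x hx
      exact ⟨sub1 _ hx.2.2.1 hx.2.2.2, mem_univ _⟩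
    have c3 : ContinuousOn (fun x : R4 => κ x.1 x.2.2.1 * star (Φ (1 - x.2.1) x.2.2.2)) Sq :=
      c1.mul c2.star
    exact (c3.mul continuousOn_const).mul c3.star
  · intro j x hx
    obtain ⟨h0, h1, h2, h3⟩ := hx
    have a1 := (hu x.1 ⟨h0, h1⟩ x.2.2.1).1
    have a2 := (hu _ (sub1 _ h2 h3) x.2.2.2).2.1
    have a3 : κ x.1 x.2.2.1 * star (Φ (1 - x.2.1) x.2.2.2) ∈ unitary (En k) :=
      mul_mem a1 (Unitary.star_mem a2)
    obtain ⟨b1, b2⟩ := uu a3
    dsimp only
    generalize κ x.1 x.2.2.1 * star (Φ (1 - x.2.1) x.2.2.2) = U at b1 b2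
    obtain ⟨w1, w2, -, -⟩ := hϖ j
    refine ⟨?_, ?_, ?_⟩
    · calc U * ϖ j * star U * (U * ϖ j * star U) = U * ϖ j * (star U * U) * ϖ j * star U := by
            simp only [mul_assoc]
        _ = U * ϖ j * star U := by rw [b1, mul_one, mul_assoc U, w1]
    · rw [star_mul, star_mul, star_star, w2, mul_assoc]
    · rw [tr_conj _ _ b1]
      exact htr j
  · intro i j hij x hx
    obtain ⟨h0, h1, h2, h3⟩ := hx
    have a1 := (hu x.1 ⟨h0, h1⟩ x.2.2.1).1
    have a2 := (hu _ (sub1 _ h2 h3) x.2.2.2).2.1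
    have a3 : κ x.1 x.2.2.1 * star (Φ (1 - x.2.1) x.2.2.2) ∈ unitary (En k) :=
      mul_mem a1 (Unitary.star_mem a2)
    obtain ⟨b1, b2⟩ := uu a3
    dsimp only
    generalize κ x.1 x.2.2.1 * star (Φ (1 - x.2.1) x.2.2.2) = U at b1 b2
    calc U * ϖ i * star U * (U * ϖ j * star U) = U * ϖ i * (star U * U) * ϖ j * star U := by
            simp only [mul_assoc]
      _ = 0 := by rw [b1, mul_one, mul_assoc U, orth i j hij, mul_zero, zero_mul]
  · intro x hx
    obtain ⟨h0, h1, h2, h3⟩ := hx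
    have a1 := (hu x.1 ⟨h0, h1⟩ x.2.2.1).1
    have a2 := (hu _ (sub1 _ h2 h3) x.2.2.2).2.1
    have a3 : κ x.1 x.2.2.1 * star (Φ (1 - x.2.1) x.2.2.2) ∈ unitary (En k) :=
      mul_mem a1 (Unitary.star_mem a2)
    obtain ⟨b1, b2⟩ := uu a3
    dsimp only
    generalize κ x.1 x.2.2.1 * star (Φ (1 - x.2.1) x.2.2.2) = U at b1 b2
    rw [← Finset.sum_mul, ← Finset.mul_sum, hsum, mul_one, b2]
  · intro j r s α β hx
    obtain ⟨h0, h1, h2, h3⟩ := hx
    refine ⟨?_, ?_⟩
    · simp only
      rw [(hu r ⟨h0, h1⟩ α).2.2.1]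
    · simp only
      rw [(hu (1 - s) (sub1 s h2 h3) β).2.2.2]
  · intro j s α β h0 h1
    refine ⟨?_, ?_⟩
    · simp only
      rw [κ0, κ0]
    · simp only
      have a1 := (hu 1 one1 α).1
      have a2 := (hu _ (sub1 s h0 h1) β).2.1
      have a2' := (hu _ (sub1 s h0 h1) (β + a * α)).2.1
      have a3 : l α * κ 1 α ∈ unitary (En k) := mul_mem (h.unit α).2.2.2 a1
      have e1 := hrel _ (sub1 s h0 h1) α β
      have e2 : g α * κ 1 α * star (Φ (1 - s) β)
          = star (Φ (1 - s) (β + a * α)) * (l α * κ 1 α) := by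
        calc g α * κ 1 α * star (Φ (1 - s) β)
            = star (Φ (1 - s) (β + a * α)) * (Φ (1 - s) (β + a * α) * (g α * κ 1 α)) *
              star (Φ (1 - s) β) := by
              rw [← mul_assoc (star _) (Φ (1 - s) (β + a * α)), (uu a2').1, one_mul]
          _ = star (Φ (1 - s) (β + a * α)) * (l α * κ 1 α) * (Φ (1 - s) β *
              star (Φ (1 - s) β)) := by
              rw [e1]
              simp only [mul_assoc]
          _ = _ := by rw [(uu a2).2, mul_one]
      rw [κs0 1 one1, one_mul]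
      have e3 : g α * (κ 1 α * star (Φ (1 - s) β) * ϖ j * star (κ 1 α * star (Φ (1 - s) β)))
          * star (g α) = (g α * κ 1 α * star (Φ (1 - s) β)) * ϖ j *
            star (g α * κ 1 α * star (Φ (1 - s) β)) := by
        simp only [star_mul, star_star, mul_assoc]
      rw [e3, e2, star_mul, star_star]
      have e4 := (hϖ j).2.2.1 α
      calc star (Φ (1 - s) (β + a * α)) * ϖ j * Φ (1 - s) (β + a * α)
          = star (Φ (1 - s) (β + a * α)) * ϖ j * ((l α * κ 1 α) * star (l α * κ 1 α)) *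
            Φ (1 - s) (β + a * α) := by rw [(uu a3).2, mul_one]
        _ = star (Φ (1 - s) (β + a * α)) * (ϖ j * (l α * κ 1 α)) * (star (l α * κ 1 α) *
            Φ (1 - s) (β + a * α)) := by simp only [mul_assoc]
        _ = _ := by
            rw [← e4]
            simp only [mul_assoc]
  · intro j r α β h0 h1
    refine ⟨?_, ?_⟩
    · simp only [sub_zero]
      have e1 := (hϖ j).2.2.2 β
      have e2 : ∀ β, κ r α * star (Φ 1 β) * ϖ j * star (κ r α * star (Φ 1 β))
          = κ r α * (star (Φ 1 β) * ϖ j * Φ 1 β) * star (κ r α) := by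
        intro β
        simp only [star_mul, star_star, mul_assoc]
      rw [e2, e2, e1]
    · simp only [sub_self, Int.cast_zero, zero_mul, add_zero, Φ0, h.one.2.1, star_one, mul_one]
      have a1 := (hu r ⟨h0, h1⟩ α).1
      have e1 := comm r ⟨h0, h1⟩ α β
      have e2 := uu (h.unit β).2.1
      have e3 : f β * (κ r α * star (f β)) = κ r α := by
        rw [← mul_assoc, e1, mul_assoc, e2.2, mul_one]
      calc κ r α * ϖ j * star (κ r α)
          = (f β * (κ r α * star (f β))) * ϖ j * star (f β * (κ r α * star (f β))) := by rw [e3]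
        _ = _ := by simp only [star_mul, star_star, mul_assoc]

end Pool.Agent.Helper28.QT
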